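import Pool.Agent.Helper65.KPZ.St

/-! Project KP (MP_26be5b_ag), chapter Z, module ZPU. -/

set_option autoImplicit false

namespace Pool.Agent.Helper75.KPZ

open Pool.Agent.Helper65.KPZ

universe u v w

section

variable {A : Type u} [CommRing A] [Algebra ℂ A] {Λ : Type v} [AddCommMonoid Λ]
  {Λ' : Type w} [AddCommMonoid Λ']

private noncomputable def Ph (A : Type u) [CommRing A] [Algebra ℂ A] (ψ : Λ →+ Λ') :
    AddMonoidAlgebra A Λ →ₐ[ℂ] AddMonoidAlgebra A Λ' := AddMonoidAlgebra.mapDomainAlgHom ℂ A ψ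

private theorem Ph_apply (ψ : Λ →+ Λ') (x : AddMonoidAlgebra A Λ) :
    Ph A ψ x = AddMonoidAlgebra.mapDomain ψ x := rfl

private theorem Ph_single (ψ : Λ →+ Λ') (a : Λ) (f : A) :
    Ph A ψ (AddMonoidAlgebra.single a f) = AddMonoidAlgebra.single (ψ a) f := by
  rw [Ph_apply, AddMonoidAlgebra.mapDomain_single]

private theorem single_mem_gr (F : Λ → Submodule ℂ A) (hF : Mult F) (a : Λ) (f : A)
    (hf : f ∈ F a) : AddMonoidAlgebra.single a f ∈ gr F hF := by
  classical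
  intro b
  rw [AddMonoidAlgebra.coeff_single, Finsupp.single_apply]
  split_ifs with h
  · rw [← h]; exact hf
  · exact zero_mem _

private theorem Ph_mem (F : Λ → Submodule ℂ A) (hF : Mult F) (ψ : Λ →+ Λ')
    (x : AddMonoidAlgebra A Λ) (hx : x ∈ gr F hF) : Ph A ψ x ∈ psh F ψ := by
  rw [← x.sum_coeff_single, Finsupp.sum, map_sum]
  refine Subalgebra.sum_mem _ fun a _ => ?_
  rw [Ph_single]
  exact Algebra.subset_adjoin ⟨a, x.coeff a, hx a, rfl⟩

private theorem Ph_surj (F : Λ → Submodule ℂ A) (hF : Mult F) (ψ : Λ →+ Λ') :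
    psh F ψ ≤ (gr F hF).map (Ph A ψ) := by
  refine Algebra.adjoin_le ?_
  rintro b ⟨a, f, hf, rfl⟩
  exact ⟨AddMonoidAlgebra.single a f, single_mem_gr F hF a f hf, Ph_single ψ a f⟩

private theorem Ph_inj (D : ℕ → Submodule ℂ A) (hD : Ind D) (deg : Λ →+ ℕ)
    (F : Λ → Submodule ℂ A) (hF : Mult F) (hFD : ∀ a, F a ≤ D (deg a)) (ψ : Λ →+ Λ')
    (hinj : ∀ a b, deg a = deg b → ψ a = ψ b → a = b) (x : AddMonoidAlgebra A Λ)
    (hx : x ∈ gr F hF) (h0 : Ph A ψ x = 0) : x = 0 := by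
  classical
  ext a₀
  rw [AddMonoidAlgebra.coeff_zero, Finsupp.zero_apply]
  by_contra hne
  have ha₀ : a₀ ∈ x.coeff.support := Finsupp.mem_support_iff.2 hne
  set S := x.coeff.support.filter (fun a => ψ a = ψ a₀) with hS
  have hsum : ∑ a ∈ S, x.coeff a = 0 := by
    have h1 : (Finsupp.mapDomain ψ x.coeff) (ψ a₀) = 0 := by
      have h2 : (Ph A ψ x).coeff (ψ a₀) = 0 := by rw [h0]; simp
      exact h2
    rw [Finsupp.mapDomain, Finsupp.sum, Finsupp.finsetSum_apply] at h1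
    simp only [Finsupp.single_apply] at h1
    rw [← Finset.sum_filter] at h1
    exact h1
  set f : ℕ → A := fun k => ∑ a ∈ S.filter (fun a => deg a = k), x.coeff a with hf
  have h3 := hD (S.image deg) f ?_ ?_ (deg a₀) (Finset.mem_image_of_mem _ ?_)
  · have h4 : S.filter (fun a => deg a = deg a₀) = {a₀} := by
      ext a
      simp only [hS, Finset.mem_filter, Finset.mem_singleton]
      constructor
      · rintro ⟨⟨_, h5⟩, h6⟩
        exact hinj a a₀ h6 h5
      · rintro rfl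
        exact ⟨⟨ha₀, rfl⟩, rfl⟩
    simp only [hf] at h3
    rw [h4, Finset.sum_singleton] at h3
    exact hne h3
  · intro k _
    refine Submodule.sum_mem _ fun a ha => ?_
    rw [Finset.mem_filter] at ha
    rw [← ha.2]
    exact hFD a (hx a)
  · rw [← hsum]
    exact Finset.sum_fiberwise_of_maps_to (fun a ha => Finset.mem_image_of_mem _ ha) _
  · rw [hS, Finset.mem_filter]
    exact ⟨ha₀, rfl⟩

end

theorem hZPU : StZPU.{u, v, w} := by
  intro A _ _ Λ _ Λ' _ D hD deg F hF hFD ψ hinj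
  let Φ : gr F hF →+* psh F ψ :=
    (((Ph A ψ).comp (gr F hF).val).codRestrict (psh F ψ)
      (fun x => Ph_mem F hF ψ x.1 x.2)).toRingHom
  have hval : ∀ x : gr F hF, ((Φ x : psh F ψ) : AddMonoidAlgebra A Λ') = Ph A ψ x.1 :=
    fun _ => rfl
  refine ⟨RingEquiv.ofBijective Φ ⟨?_, ?_⟩⟩
  · rw [injective_iff_map_eq_zero]
    intro x hx
    have h1 : Ph A ψ x.1 = 0 := by
      rw [← hval, hx]
      rfl
    exact Subtype.ext (Ph_inj D hD deg F hF hFD ψ hinj x.1 x.2 h1)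
  · rintro ⟨y, hy⟩
    obtain ⟨x, hx, hxy⟩ := Ph_surj F hF ψ hy
    exact ⟨⟨x, hx⟩, Subtype.ext hxy⟩

end Pool.Agent.Helper75.KPZ
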